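import Mathlib

set_option autoImplicit false

open scoped TensorProduct
open MulOpposite

namespace Pool.Agent.Results.MP_ae31bd_an.MatrixDual

/-! ### Definitions -/

section defs
variable (A : Type) [Ring A] [Algebra ℂ A]

/-- the enveloping algebra `A₊ ⊗ A₊ᵒᵖ` (algebraic tensor product; for finite-dimensional `A` this is
the projective tensor product) -/
abbrev Env := (Unitization ℂ A) ⊗[ℂ] (Unitization ℂ A)ᵐᵒᵖ

/-- `π₊(a ⊗ b) = ab` -/
noncomputable def piPlus : Env A →ₗ[ℂ] Unitization ℂ A :=
  TensorProduct.lift ((LinearMap.mul ℂ (Unitization ℂ A)).compl₂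
    (MulOpposite.opLinearEquiv ℂ (M := Unitization ℂ A)).symm.toLinearMap)

/-- the diagonal ideal -/
noncomputable def diag : Submodule ℂ (Env A) := LinearMap.ker (piPlus A)

/-- the diagonal ideal is idempotent -/
def DiagIdempotent : Prop :=
  Submodule.span ℂ {z : Env A | ∃ x ∈ diag A, ∃ y ∈ diag A, z = x * y} = diag A

/-- weak amenability of a Banach algebra -/
def WeaklyAmenable (A : Type) [NormedRing A] [NormedAlgebra ℂ A] : Prop :=
  ∀ D : A →L[ℂ] (A →L[ℂ] ℂ), (∀ a b c : A, D (a * b) c = D b (c * a) + D a (b * c)) →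
    ∃ f : A →L[ℂ] ℂ, ∀ a b : A, D a b = f (b * a) - f (a * b)

end defs

/-! ### The diagonal ideal -/

section env
variable {A : Type} [Ring A] [Algebra ℂ A]

theorem piPlus_tmul (a b : Unitization ℂ A) : piPlus A (a ⊗ₜ op b) = a * b := by
  simp [piPlus]

theorem piPlus_mul (a b : Unitization ℂ A) (x : Env A) :
    piPlus A ((a ⊗ₜ op b) * x) = a * piPlus A x * b := by
  induction x using TensorProduct.induction_on with
  | zero => simp
  | tmul c d =>
    rw [Algebra.TensorProduct.tmul_mul_tmul]
    have h1 : op b * d = op (unop d * b) := by simp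
    have h2 : piPlus A (c ⊗ₜ d) = c * unop d := by
      have := piPlus_tmul c (unop d)
      rwa [op_unop] at this
    rw [h1, piPlus_tmul, h2]
    simp [mul_assoc]
  | add x y hx hy => rw [mul_add, map_add, hx, hy, map_add, mul_add, add_mul]

theorem diag_left (z x : Env A) (hx : x ∈ diag A) : z * x ∈ diag A := by
  have hx' : piPlus A x = 0 := hx
  change piPlus A (z * x) = 0
  induction z using TensorProduct.induction_on with
  | zero => simp
  | tmul c d =>
    have := piPlus_mul c (unop d) x
    rw [op_unop] at this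
    rw [this, hx', mul_zero, zero_mul]
  | add z w hz hw => rw [add_mul, map_add, hz, hw, add_zero]

/-- span of the products -/
noncomputable def J (A : Type) [Ring A] [Algebra ℂ A] : Submodule ℂ (Env A) :=
  Submodule.span ℂ {z : Env A | ∃ x ∈ diag A, ∃ y ∈ diag A, z = x * y}

theorem J_le : J A ≤ diag A := by
  unfold J
  rw [Submodule.span_le]
  rintro _ ⟨x, _, y, hy, rfl⟩
  exact diag_left x y hy

theorem J_left (z x : Env A) (hx : x ∈ J A) : z * x ∈ J A := by
  unfold J at *
  induction hx using Submodule.span_induction with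
  | mem x h =>
    obtain ⟨u, hu, v, hv, rfl⟩ := h
    rw [← mul_assoc]
    exact Submodule.subset_span ⟨z * u, diag_left z u hu, v, hv, rfl⟩
  | zero => rw [mul_zero]; exact Submodule.zero_mem _
  | add x y _ _ h1 h2 => rw [mul_add]; exact Submodule.add_mem _ h1 h2
  | smul c x _ h => rw [mul_smul_comm]; exact Submodule.smul_mem _ _ h

/-- the universal derivation -/
noncomputable def d (a : Unitization ℂ A) : Env A := (1 : Unitization ℂ A) ⊗ₜ op a - a ⊗ₜ op 1

theorem d_mem (a : Unitization ℂ A) : d a ∈ diag A := by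
  change piPlus A (d a) = 0
  unfold d
  rw [map_sub, piPlus_tmul, piPlus_tmul, one_mul, mul_one, sub_self]

theorem d_add (a b : Unitization ℂ A) : d (a + b) = d a + d b := by
  unfold d
  rw [op_add, TensorProduct.tmul_add, TensorProduct.add_tmul]; abel

theorem d_smul (c : ℂ) (a : Unitization ℂ A) : d (c • a) = c • d a := by
  unfold d
  rw [op_smul, TensorProduct.tmul_smul, ← TensorProduct.smul_tmul', smul_sub]

theorem d_one : d (1 : Unitization ℂ A) = 0 := by
  unfold d; rw [sub_self]

theorem d_mul (a b : Unitization ℂ A) :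
    d (a * b) = ((1 : Unitization ℂ A) ⊗ₜ op b) * d a + (a ⊗ₜ op 1) * d b := by
  unfold d
  rw [mul_sub, mul_sub, Algebra.TensorProduct.tmul_mul_tmul, Algebra.TensorProduct.tmul_mul_tmul,
    Algebra.TensorProduct.tmul_mul_tmul, Algebra.TensorProduct.tmul_mul_tmul]
  simp only [one_mul, mul_one, ← op_mul]
  abel

theorem d_mul' (a b : Unitization ℂ A) :
    d (a * b) - ((b ⊗ₜ op 1) * d a + (a ⊗ₜ op 1) * d b) ∈ J A := by
  have h : d (a * b) - ((b ⊗ₜ op 1) * d a + (a ⊗ₜ op 1) * d b) = d b * d a := by
    rw [d_mul]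
    have : d b * d a = ((1 : Unitization ℂ A) ⊗ₜ op b) * d a - (b ⊗ₜ op 1) * d a := by
      conv_lhs => rw [show d b = (1 : Unitization ℂ A) ⊗ₜ op b - b ⊗ₜ op 1 from rfl]
      rw [sub_mul]
    rw [this]; abel
  rw [h]
  exact Submodule.subset_span ⟨d b, d_mem b, d a, d_mem a, rfl⟩

theorem d_comm (a b : Unitization ℂ A) : d (a * b) - d (b * a) ∈ J A := by
  have h1 := d_mul' a b
  have h2 := d_mul' b a
  have := Submodule.sub_mem _ h1 h2
  convert this using 1
  abel

theorem d_mul_mem (a b : Unitization ℂ A) (ha : d a ∈ J A) (hb : d b ∈ J A) : d (a * b) ∈ J A := by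
  have h1 := d_mul' a b
  have h2 := Submodule.add_mem _ (J_left (b ⊗ₜ op 1) _ ha) (J_left (a ⊗ₜ op 1) _ hb)
  have := Submodule.add_mem _ h1 h2
  rwa [sub_add_cancel] at this

theorem idem_of_d (h : ∀ a : A, d (a : Unitization ℂ A) ∈ J A) : DiagIdempotent A := by
  have h' : ∀ y : Unitization ℂ A, d y ∈ J A := by
    intro y
    have hy : y = y.fst • (1 : Unitization ℂ A) + (y.snd : Unitization ℂ A) := by
      ext <;> simp
    rw [hy, d_add, d_smul, d_one, smul_zero, zero_add]
    exact h _
  have key : ∀ z : Env A, z - (piPlus A z) ⊗ₜ op 1 ∈ J A := by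
    intro z
    induction z using TensorProduct.induction_on with
    | zero => simp
    | tmul c e =>
      have h1 : c ⊗ₜ[ℂ] e - (piPlus A (c ⊗ₜ e)) ⊗ₜ op 1 = (c ⊗ₜ op 1) * d (unop e) := by
        have h2 : piPlus A (c ⊗ₜ e) = c * unop e := by
          have := piPlus_tmul c (unop e)
          rwa [op_unop] at this
        rw [h2]
        unfold d
        rw [mul_sub, Algebra.TensorProduct.tmul_mul_tmul, Algebra.TensorProduct.tmul_mul_tmul]
        simp
      rw [h1]
      exact J_left _ _ (h' _)
    | add x y hx hy =>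
      have := Submodule.add_mem _ hx hy
      convert this using 1
      rw [map_add, TensorProduct.add_tmul]
      abel
  unfold DiagIdempotent
  refine le_antisymm J_le fun z hz => ?_
  have h1 := key z
  have hz' : piPlus A z = 0 := hz
  rw [hz', TensorProduct.zero_tmul, sub_zero] at h1
  exact h1

end env

/-! ### The algebra `M₂(ℂ[ε])` -/

/-- the algebra -/
abbrev M := Matrix (Fin 2) (Fin 2) (DualNumber ℂ)

attribute [local instance] Matrix.linftyOpNormedRing Matrix.linftyOpNormedAlgebra

instance : FiniteDimensional ℂ (DualNumber ℂ) := inferInstanceAs (Module.Finite ℂ (ℂ × ℂ))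

theorem M_fd : FiniteDimensional ℂ M := inferInstance

theorem M_d (a : M) : d (a : Unitization ℂ M) ∈ J M := by
  have hoff : ∀ (i j : Fin 2) (b : DualNumber ℂ), i ≠ j → d ((Matrix.single i j b : M) : Unitization ℂ M) ∈ J M := by
    intro i j b hij
    have h1 := d_comm ((Matrix.single i i 1 : M) : Unitization ℂ M) ((Matrix.single i j b : M) : Unitization ℂ M)
    rw [← Unitization.inr_mul, ← Unitization.inr_mul, Matrix.single_mul_single_same, one_mul,
      Matrix.single_mul_single_of_ne _ _ _ _ hij.symm] at h1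
    have h0 : d ((0 : M) : Unitization ℂ M) = 0 := by
      have := d_smul (0 : ℂ) (1 : Unitization ℂ M)
      rw [zero_smul, zero_smul] at this
      rw [Unitization.inr_zero]; exact this
    rw [h0, sub_zero] at h1
    exact h1
  have hdiag : ∀ (i : Fin 2) (b : DualNumber ℂ), d ((Matrix.single i i b : M) : Unitization ℂ M) ∈ J M := by
    intro i b
    obtain ⟨k, hk⟩ : ∃ k : Fin 2, i ≠ k := by
      fin_cases i
      · exact ⟨1, by decide⟩
      · exact ⟨0, by decide⟩
    have h1 := d_mul_mem _ _ (hoff i k b hk) (hoff k i 1 hk.symm)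
    rw [← Unitization.inr_mul, Matrix.single_mul_single_same, mul_one] at h1
    exact h1
  have hall : ∀ (i j : Fin 2) (b : DualNumber ℂ), d ((Matrix.single i j b : M) : Unitization ℂ M) ∈ J M := by
    intro i j b
    rcases eq_or_ne i j with h | h
    · subst h; exact hdiag i b
    · exact hoff i j b h
  have ha : a = Matrix.single 0 0 (a 0 0) + Matrix.single 0 1 (a 0 1) + Matrix.single 1 0 (a 1 0) + Matrix.single 1 1 (a 1 1) := by
    refine Matrix.ext fun i j => ?_
    fin_cases i <;> fin_cases j <;> simp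
  rw [ha, Unitization.inr_add, Unitization.inr_add, Unitization.inr_add, d_add, d_add, d_add]
  exact Submodule.add_mem _ (Submodule.add_mem _ (Submodule.add_mem _ (hall _ _ _) (hall _ _ _)) (hall _ _ _)) (hall _ _ _)

/-- the derivation, as a bilinear form: `D(a)(c) = tr(a₁ c₀)` -/
noncomputable def Dlin : M →ₗ[ℂ] M →ₗ[ℂ] ℂ :=
  LinearMap.mk₂ ℂ (fun a c => ∑ i, ∑ j, (a i j).snd * (c j i).fst)
    (by intro a b c; simp [add_mul, Finset.sum_add_distrib])
    (by intro r a c; simp; ring)
    (by intro a b c; simp [mul_add, Finset.sum_add_distrib])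
    (by intro r a c; simp; ring)

noncomputable def D : M →L[ℂ] (M →L[ℂ] ℂ) :=
  LinearMap.toContinuousLinearMap ((LinearMap.toContinuousLinearMap (𝕜 := ℂ) (E := M) (F' := ℂ)).toLinearMap ∘ₗ Dlin)

theorem D_apply (a c : M) : D a c = ∑ i, ∑ j, (a i j).snd * (c j i).fst := rfl

theorem D_der (a b c : M) : D (a * b) c = D b (c * a) + D a (b * c) := by
  rw [D_apply, D_apply, D_apply]
  simp [Fin.sum_univ_two, Matrix.mul_apply]
  ring

theorem D_not_inner : ¬ ∃ f : M →L[ℂ] ℂ, ∀ a b : M, D a b = f (b * a) - f (a * b) := by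
  rintro ⟨f, hf⟩
  have h := hf ((DualNumber.eps : DualNumber ℂ) • (1 : M)) 1
  rw [one_mul, mul_one, sub_self, D_apply] at h
  simp [Fin.sum_univ_two, Matrix.one_apply] at h

/-- `M₂(ℂ[ε])` has idempotent diagonal ideal but is not weakly amenable. -/
theorem result : ∃ (A : Type) (_ : NormedRing A) (_ : NormedAlgebra ℂ A), CompleteSpace A ∧ FiniteDimensional ℂ A ∧
    DiagIdempotent A ∧ ¬ WeaklyAmenable A := by
  refine ⟨M, inferInstance, inferInstance, ?_, M_fd, idem_of_d M_d, fun h => D_not_inner (h D D_der)⟩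
  exact FiniteDimensional.complete ℂ M

end Pool.Agent.Results.MP_ae31bd_an.MatrixDual
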